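import Pool.Agent.Q236.GB.Sup

set_option autoImplicit false

/-!
# Averages over the constant terms of the forms
-/

namespace Pool.Agent.Q236.GB

open Finset Pool.Agent.H807R2.Dav
open Pool.Agent.H373R2.T7 (sq_expand orth conj_ee)

/-- the fibres of `φ` -/
lemma sq_fib {ι : Type*} [DecidableEq ι] (I : Finset ι) (C : ι → ℂ) (φ : ι → ℤ) (M : ℕ) (hM : 1 ≤ M)
    (hsm : ∀ i ∈ I, ∀ j ∈ I, |φ i - φ j| < M) (R : Finset ℤ) :
    (M : ℝ) * ∑ r ∈ R, ‖∑ i ∈ I.filter (fun i => φ i = r), C i‖ ^ 2 ≤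
      ∑ t ∈ range M, ‖∑ i ∈ I, C i * ee ((t : ℝ) * ((φ i : ℝ) / M))‖ ^ 2 := by
  have h1 := sq_expand I C φ M hM
  have hrw : ∀ i ∈ I, ∀ j ∈ I, ((M : ℤ) ∣ φ i - φ j ↔ φ i = φ j) := by
    intro i hi j hj
    constructor
    · intro hd
      have := Int.eq_zero_of_abs_lt_dvd hd (hsm i hi j hj)
      omega
    · intro h
      rw [h, sub_self]
      exact dvd_zero _
  obtain ⟨R', hR'⟩ : ∃ R', R' = R ∪ I.image φ := ⟨_, rfl⟩
  have h2 : ∑ i ∈ I, ∑ j ∈ I, C i * (starRingEnd ℂ) (C j) * (if (M : ℤ) ∣ φ i - φ j then (M : ℂ) else 0) =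
      ((M * ∑ r ∈ R', ‖∑ i ∈ I.filter (fun i => φ i = r), C i‖ ^ 2 : ℝ) : ℂ) := by
    have e1 : ∀ i ∈ I, ∑ j ∈ I, C i * (starRingEnd ℂ) (C j) * (if (M : ℤ) ∣ φ i - φ j then (M : ℂ) else 0) =
        M * (C i * ∑ j ∈ I.filter (fun j => φ j = φ i), (starRingEnd ℂ) (C j)) := by
      intro i hi
      rw [Finset.mul_sum, Finset.mul_sum, Finset.sum_filter]
      apply Finset.sum_congr rfl
      intro j hj
      by_cases h : φ i = φ j
      · rw [if_pos ((hrw i hi j hj).2 h), if_pos h.symm]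
        ring
      · rw [if_neg (fun h' => h ((hrw i hi j hj).1 h')), if_neg (fun h' => h h'.symm), mul_zero]
    rw [Finset.sum_congr rfl e1, ← Finset.mul_sum]
    have hmap : ∀ i ∈ I, φ i ∈ R' := by
      intro i hi
      rw [hR', mem_union]
      exact Or.inr (mem_image_of_mem φ hi)
    rw [← Finset.sum_fiberwise_of_maps_to hmap]
    push_cast
    congr 1
    apply Finset.sum_congr rfl
    intro r _
    rw [← Complex.mul_conj', map_sum, Finset.sum_mul]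
    apply Finset.sum_congr rfl
    intro i hi
    rw [mem_filter] at hi
    rw [hi.2]
  rw [h2] at h1
  have h3 : ∑ t ∈ range M, ‖∑ i ∈ I, C i * ee ((t : ℝ) * ((φ i : ℝ) / M))‖ ^ 2 =
      M * ∑ r ∈ R', ‖∑ i ∈ I.filter (fun i => φ i = r), C i‖ ^ 2 := by exact_mod_cast h1
  rw [h3]
  apply mul_le_mul_of_nonneg_left _ (Nat.cast_nonneg M)
  apply Finset.sum_le_sum_of_subset_of_nonneg
  · rw [hR']
    exact subset_union_left
  · intro r _ _
    positivity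

/-- the sum over the constant term of one form -/
theorem one_dim (Y Y' : ℕ) (s : ℤ) (c : ℕ → ℂ) (b : ℤ → ℝ) (hb : ∀ m : ℤ, (m < 1 ∨ Y' < m) → b m = 0) (M : ℕ)
    (hM : M = s.natAbs * Y + Y' + 1) (R : Finset ℤ) :
    (M : ℝ) * ∑ r ∈ R, ‖∑ w ∈ Icc 1 Y, c w * ((b (s * w + r) : ℝ) : ℂ)‖ ^ 2 ≤
      ∑ t ∈ range M, ‖∑ w ∈ Icc 1 Y, c w * ee ((t : ℝ) * (((-(s * w) : ℤ) : ℝ) / M))‖ ^ 2 *
        ‖∑ v ∈ Icc 1 Y', ((b v : ℝ) : ℂ) * ee ((t : ℝ) * ((v : ℝ) / M))‖ ^ 2 := by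
  have hM1 : 1 ≤ M := by omega
  have h1 := sq_fib (Icc 1 Y ×ˢ Icc 1 Y') (fun x : ℕ × ℕ => c x.1 * ((b (x.2 : ℤ) : ℝ) : ℂ)) (fun x => (x.2 : ℤ) - s * x.1) M hM1 (by
    rintro ⟨w, v⟩ hx ⟨w', v'⟩ hx'
    rw [mem_product, mem_Icc, mem_Icc] at hx hx'
    simp only at hx hx' ⊢
    have e : (v : ℤ) - s * w - (v' - s * w') = ((v : ℤ) - v') - s * ((w : ℤ) - w') := by ring
    rw [e]
    have a1 : |(v : ℤ) - v'| ≤ Y' := by
      rw [abs_le]
      constructor <;> omega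
    have a2 : |s * ((w : ℤ) - w')| ≤ s.natAbs * Y := by
      rw [abs_mul, ← Int.natCast_natAbs s]
      apply mul_le_mul_of_nonneg_left _ (Int.natCast_nonneg _)
      rw [abs_le]
      constructor <;> omega
    have a3 := abs_sub ((v : ℤ) - v') (s * ((w : ℤ) - w'))
    rw [hM]
    push_cast
    push_cast at a2
    linarith) R
  have h2 : ∀ r : ℤ, ∑ i ∈ (Icc 1 Y ×ˢ Icc 1 Y').filter (fun x : ℕ × ℕ => (x.2 : ℤ) - s * x.1 = r), c i.1 * ((b (i.2 : ℤ) : ℝ) : ℂ) =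
      ∑ w ∈ Icc 1 Y, c w * ((b (s * w + r) : ℝ) : ℂ) := by
    intro r
    rw [Finset.sum_filter, Finset.sum_product]
    apply Finset.sum_congr rfl
    intro w _
    by_cases hin : 1 ≤ s * w + r ∧ s * w + r ≤ Y'
    · rw [Finset.sum_eq_single (s * w + r).toNat]
      · have e1 : (((s * w + r).toNat : ℕ) : ℤ) = s * w + r := Int.toNat_of_nonneg (by omega)
        rw [if_pos (by rw [e1]; ring), e1]
      · intro v _ hne
        rw [if_neg]
        intro hv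
        apply hne
        have : s * (w : ℤ) + r = v := by linarith
        rw [this, Int.toNat_natCast]
      · intro hn
        exfalso
        apply hn
        rw [mem_Icc]
        omega
    · have hz : b (s * w + r) = 0 := hb _ (by omega)
      rw [hz]
      simp only [Complex.ofReal_zero, mul_zero]
      apply Finset.sum_eq_zero
      intro v hv
      rw [mem_Icc] at hv
      rw [if_neg]
      intro h
      apply hin
      have : s * (w : ℤ) + r = v := by linarith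
      rw [this]
      omega
  simp only [h2] at h1
  refine h1.trans (le_of_eq ?_)
  apply Finset.sum_congr rfl
  intro t _
  rw [← mul_pow, ← norm_mul]
  congr 2
  rw [Finset.sum_mul_sum, ← Finset.sum_product']
  apply Finset.sum_congr rfl
  intro x _
  have e : (t : ℝ) * ((((x.2 : ℤ) - s * x.1 : ℤ) : ℝ) / M) =
      (t : ℝ) * (((-(s * x.1) : ℤ) : ℝ) / M) + (t : ℝ) * (((x.2 : ℕ) : ℝ) / M) := by
    push_cast
    ring
  rw [e, ee_add]
  ring

/-- Parseval for the second factor -/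
lemma par_b (Y' M : ℕ) (hM : 1 ≤ M) (hY : Y' ≤ M) (b : ℤ → ℝ) :
    ∑ t ∈ range M, ‖∑ v ∈ Icc 1 Y', ((b v : ℝ) : ℂ) * ee ((t : ℝ) * ((v : ℝ) / M))‖ ^ 2 = M * ∑ v ∈ Icc 1 Y', b (v : ℕ) ^ 2 := by
  have h := Pool.Agent.H373R2.T7.parseval_Icc Y' M hM hY (fun v : ℕ => ((b (v : ℤ) : ℝ) : ℂ)) 1 (Or.inl rfl)
  have e1 : ∀ t : ℕ, ∑ v ∈ Icc 1 Y', ((b (v : ℕ) : ℝ) : ℂ) * ee ((t : ℝ) * ((v : ℝ) / M)) =
      ∑ a ∈ Icc 1 Y', ((b (a : ℤ) : ℝ) : ℂ) * ee ((t : ℝ) * (((1 * (a : ℤ) : ℤ) : ℝ) / M)) := by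
    intro t
    apply Finset.sum_congr rfl
    intro v _
    push_cast
    rw [one_mul]
  simp only [e1]
  rw [h]
  congr 1
  apply Finset.sum_congr rfl
  intro v _
  rw [Complex.norm_real, Real.norm_eq_abs, sq_abs]

/-- Parseval for the first factor -/
lemma par_c (Y M : ℕ) (s : ℤ) (hs : s ≠ 0) (hM : s.natAbs * Y < M) (c : ℕ → ℂ) :
    ∑ t ∈ range M, ‖∑ w ∈ Icc 1 Y, c w * ee ((t : ℝ) * (((-(s * w) : ℤ) : ℝ) / M))‖ ^ 2 = M * ∑ w ∈ Icc 1 Y, ‖c w‖ ^ 2 := by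
  have hM1 : 1 ≤ M := by omega
  have h := sq_expand (Icc 1 Y) c (fun w : ℕ => -(s * (w : ℤ))) M hM1
  have hs1 : 1 ≤ s.natAbs := Int.natAbs_pos.2 hs
  have e1 : ∀ i ∈ Icc 1 Y, ∑ j ∈ Icc 1 Y, c i * (starRingEnd ℂ) (c j) * (if (M : ℤ) ∣ -(s * (i : ℤ)) - -(s * (j : ℤ)) then (M : ℂ) else 0) =
      M * ((‖c i‖ ^ 2 : ℝ) : ℂ) := by
    intro i hi
    rw [Finset.sum_eq_single i]
    · rw [if_pos (by rw [sub_self]; exact dvd_zero _), Complex.mul_conj']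
      push_cast
      ring
    · intro j hj hne
      rw [if_neg, mul_zero]
      intro hd
      rw [mem_Icc] at hi hj
      have e : -(s * (i : ℤ)) - -(s * (j : ℤ)) = s * ((j : ℤ) - i) := by ring
      rw [e] at hd
      have h0 := Int.eq_zero_of_abs_lt_dvd hd (by
        rw [abs_mul, ← Int.natCast_natAbs s]
        have a1 : |(j : ℤ) - i| ≤ Y := by
          rw [abs_le]
          constructor <;> omega
        calc (s.natAbs : ℤ) * |(j : ℤ) - i| ≤ s.natAbs * Y := mul_le_mul_of_nonneg_left a1 (Int.natCast_nonneg _)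
          _ < M := by exact_mod_cast hM)
      rcases mul_eq_zero.1 h0 with h1 | h1
      · exact hs h1
      · apply hne
        omega
    · intro hn
      exact absurd hi hn
  rw [Finset.sum_congr rfl e1, ← Finset.mul_sum] at h
  have h3 : ((∑ t ∈ range M, ‖∑ w ∈ Icc 1 Y, c w * ee ((t : ℝ) * (((-(s * w) : ℤ) : ℝ) / M))‖ ^ 2 : ℝ) : ℂ) =
      ((M * ∑ w ∈ Icc 1 Y, ‖c w‖ ^ 2 : ℝ) : ℂ) := by
    rw [h]
    push_cast
    rfl
  exact_mod_cast h3

/-- **Average over one constant term: the exponential sum of the second factor.** -/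
theorem avg_second (Y Y' : ℕ) (s : ℤ) (hs : s ≠ 0) (c : ℕ → ℂ) (b : ℤ → ℝ) (hb : ∀ m : ℤ, (m < 1 ∨ Y' < m) → b m = 0)
    (S : ℝ) (hS : ∀ α : ℝ, ‖∑ v ∈ Icc 1 Y', ((b (v : ℕ) : ℝ) : ℂ) * ee ((v : ℝ) * α)‖ ≤ S) (R : Finset ℤ) :
    ∑ r ∈ R, ‖∑ w ∈ Icc 1 Y, c w * ((b (s * w + r) : ℝ) : ℂ)‖ ^ 2 ≤ S ^ 2 * ∑ w ∈ Icc 1 Y, ‖c w‖ ^ 2 := by
  obtain ⟨M, hM⟩ : ∃ M, M = s.natAbs * Y + Y' + 1 := ⟨_, rfl⟩
  have hM0 : (0 : ℝ) < M := by
    have : 1 ≤ M := by omega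
    exact_mod_cast this
  have h1 := one_dim Y Y' s c b hb M hM R
  have h2 := par_c Y M s hs (by omega) c
  have h3 : ∑ t ∈ range M, ‖∑ w ∈ Icc 1 Y, c w * ee ((t : ℝ) * (((-(s * w) : ℤ) : ℝ) / M))‖ ^ 2 *
        ‖∑ v ∈ Icc 1 Y', ((b v : ℝ) : ℂ) * ee ((t : ℝ) * ((v : ℝ) / M))‖ ^ 2 ≤
      ∑ t ∈ range M, ‖∑ w ∈ Icc 1 Y, c w * ee ((t : ℝ) * (((-(s * w) : ℤ) : ℝ) / M))‖ ^ 2 * S ^ 2 := by
    apply Finset.sum_le_sum
    intro t _
    apply mul_le_mul_of_nonneg_left _ (by positivity)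
    apply pow_le_pow_left₀ (norm_nonneg _)
    have h4 := hS ((t : ℝ) / M)
    refine le_trans (le_of_eq ?_) h4
    congr 1
    apply Finset.sum_congr rfl
    intro v _
    congr 2
    ring
  rw [← Finset.sum_mul, h2] at h3
  have h4 := h1.trans h3
  have e : (M : ℝ) * (∑ w ∈ Icc 1 Y, ‖c w‖ ^ 2) * S ^ 2 = M * (S ^ 2 * ∑ w ∈ Icc 1 Y, ‖c w‖ ^ 2) := by ring
  rw [e] at h4
  exact le_of_mul_le_mul_left h4 hM0

/-- the sum over a product set of vectors, one coordinate first -/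
lemma sum_cons {n : ℕ} (R : Finset ℤ) (f : (Fin (n + 1) → ℤ) → ℝ) :
    ∑ r ∈ Fintype.piFinset (fun _ : Fin (n + 1) => R), f r =
      ∑ r' ∈ Fintype.piFinset (fun _ : Fin n => R), ∑ x ∈ R, f (Fin.cons x r') := by
  rw [← Finset.sum_product']
  apply Finset.sum_bij' (fun r _ => (Fin.tail r, r 0)) (fun p _ => Fin.cons p.2 p.1)
  · intro r hr
    rw [Fintype.mem_piFinset] at hr
    rw [mem_product, Fintype.mem_piFinset]
    exact ⟨fun i => hr _, hr 0⟩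
  · intro p hp
    rw [mem_product, Fintype.mem_piFinset] at hp
    rw [Fintype.mem_piFinset]
    intro i
    refine Fin.cases ?_ ?_ i
    · exact hp.2
    · intro j
      exact hp.1 j
  · intro r _
    simp only
    exact Fin.cons_self_tail r
  · intro p _
    simp
  · intro r _
    simp only
    rw [Fin.cons_self_tail]

/-- **Average over all the constant terms: the exponential sum of the first factor.** -/
theorem avg_first (Y Y' : ℕ) (S β : ℝ) (hβ : 0 ≤ β) (R : Finset ℤ) : ∀ (e : ℕ) (s : Fin e → ℤ) (b : Fin e → ℤ → ℝ),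
    (∀ j, ∀ m : ℤ, (m < 1 ∨ Y' < m) → b j m = 0) → (∀ j, ∑ v ∈ Icc 1 Y', b j (v : ℕ) ^ 2 ≤ β) → ∀ c : ℕ → ℂ,
    (∀ α : ℝ, ‖∑ w ∈ Icc 1 Y, c w * ee ((w : ℝ) * α)‖ ≤ S) →
    ∑ r ∈ Fintype.piFinset (fun _ : Fin e => R), ‖∑ w ∈ Icc 1 Y, c w * ((∏ j, b j (s j * w + r j) : ℝ) : ℂ)‖ ^ 2 ≤ S ^ 2 * β ^ e := by
  intro e
  induction e with
  | zero =>
    intro s b _ _ c hS
    have h1 := hS 0
    simp only [mul_zero, ee_zero, mul_one] at h1
    have h2 : Fintype.piFinset (fun _ : Fin 0 => R) = {fun i => i.elim0} := by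
      ext r
      rw [Fintype.mem_piFinset, mem_singleton]
      constructor
      · intro _
        funext i
        exact i.elim0
      · intro _ i
        exact i.elim0
    rw [h2, Finset.sum_singleton]
    simp only [Finset.univ_eq_empty, Finset.prod_empty, Complex.ofReal_one, mul_one, pow_zero]
    exact pow_le_pow_left₀ (norm_nonneg _) h1 2
  | succ e ih =>
    intro s b hb hβb c hS
    obtain ⟨M, hM⟩ : ∃ M, M = (s 0).natAbs * Y + Y' + 1 := ⟨_, rfl⟩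
    have hM0 : (0 : ℝ) < M := by
      have : 1 ≤ M := by omega
      exact_mod_cast this
    rw [sum_cons]
    have h1 : ∀ r' : Fin e → ℤ, (M : ℝ) * ∑ x ∈ R, ‖∑ w ∈ Icc 1 Y, c w * ((∏ j, b j (s j * w + (Fin.cons x r' : Fin (e + 1) → ℤ) j) : ℝ) : ℂ)‖ ^ 2 ≤
        ∑ t ∈ range M, ‖∑ w ∈ Icc 1 Y, (c w * ee ((t : ℝ) * (((-(s 0 * w) : ℤ) : ℝ) / M))) *
          ((∏ j : Fin e, b j.succ (s j.succ * w + r' j) : ℝ) : ℂ)‖ ^ 2 *
          ‖∑ v ∈ Icc 1 Y', ((b 0 (v : ℕ) : ℝ) : ℂ) * ee ((t : ℝ) * ((v : ℝ) / M))‖ ^ 2 := by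
      intro r'
      have h2 := one_dim Y Y' (s 0) (fun w => c w * ((∏ j : Fin e, b j.succ (s j.succ * w + r' j) : ℝ) : ℂ)) (b 0) (hb 0) M hM R
      have e1 : ∀ x : ℤ, ∑ w ∈ Icc 1 Y, c w * ((∏ j, b j (s j * w + (Fin.cons x r' : Fin (e + 1) → ℤ) j) : ℝ) : ℂ) =
          ∑ w ∈ Icc 1 Y, c w * ((∏ j : Fin e, b j.succ (s j.succ * w + r' j) : ℝ) : ℂ) * ((b 0 (s 0 * w + x) : ℝ) : ℂ) := by
        intro x
        apply Finset.sum_congr rfl
        intro w _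
        rw [Fin.prod_univ_succ]
        simp only [Fin.cons_zero, Fin.cons_succ]
        push_cast
        ring
      simp only [e1]
      refine h2.trans (le_of_eq ?_)
      apply Finset.sum_congr rfl
      intro t _
      congr 3
      apply Finset.sum_congr rfl
      intro w _
      ring
    have h2 : (M : ℝ) * ∑ r' ∈ Fintype.piFinset (fun _ : Fin e => R), ∑ x ∈ R,
        ‖∑ w ∈ Icc 1 Y, c w * ((∏ j, b j (s j * w + (Fin.cons x r' : Fin (e + 1) → ℤ) j) : ℝ) : ℂ)‖ ^ 2 ≤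
        ∑ t ∈ range M, (S ^ 2 * β ^ e) * ‖∑ v ∈ Icc 1 Y', ((b 0 (v : ℕ) : ℝ) : ℂ) * ee ((t : ℝ) * ((v : ℝ) / M))‖ ^ 2 := by
      rw [Finset.mul_sum]
      refine (Finset.sum_le_sum fun r' _ => h1 r').trans ?_
      rw [Finset.sum_comm]
      apply Finset.sum_le_sum
      intro t _
      rw [← Finset.sum_mul]
      apply mul_le_mul_of_nonneg_right _ (by positivity)
      apply ih (fun j => s j.succ) (fun j => b j.succ) (fun j => hb j.succ) (fun j => hβb j.succ)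
      intro α
      have h3 := hS (α - t * s 0 / M)
      refine le_trans (le_of_eq ?_) h3
      congr 1
      apply Finset.sum_congr rfl
      intro w _
      rw [mul_assoc, ← ee_add]
      congr 2
      push_cast
      ring
    rw [← Finset.mul_sum, par_b Y' M (by omega) (by omega) (b 0)] at h2
    have h3 : (S ^ 2 * β ^ e) * (M * ∑ v ∈ Icc 1 Y', b 0 (v : ℕ) ^ 2) ≤ (S ^ 2 * β ^ e) * (M * β) := by
      apply mul_le_mul_of_nonneg_left _ (by positivity)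
      exact mul_le_mul_of_nonneg_left (hβb 0) hM0.le
    have h4 := h2.trans h3
    have e2 : (S ^ 2 * β ^ e) * (M * β) = M * (S ^ 2 * β ^ (e + 1)) := by ring
    rw [e2] at h4
    exact le_of_mul_le_mul_left h4 hM0

end Pool.Agent.Q236.GB
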