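import Pool.Agent.Q236.CG.Final
import Pool.Agent.Q236.EH.Est
import Pool.Agent.H373R2.T7.SupE2

set_option autoImplicit false

/-!
# The exponential sums of the primes minus the sieve model
-/

namespace Pool.Agent.Q236.GB

open Finset Filter Pool.Agent.H807R2.Dav
open Pool.Agent.H373R2.T7 (pz Vz lamz mem_pz lamz_nonneg lamz_le Vz_pos sup_diff)
open Pool.Agent.Q236.RP (ev_log_ge ev_pow_log ev_loglog)
open Pool.Agent.Q236.CG (dz di)
open Pool.Agent.Q236.EH (abel_mono)

lemma dz_abs (z n : ℕ) (hz : 1 ≤ z) : |dz z n| ≤ 3 * z := by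
  have hzr : (1 : ℝ) ≤ z := by exact_mod_cast hz
  have h0 := lamz_nonneg z n
  have h1 := lamz_le z hz n
  have hl2 : (1 / 2 : ℝ) < Real.log 2 := by
    have := Real.log_two_gt_d9
    linarith
  have h2 : 0 ≤ lamz z n / Real.log n ∧ lamz z n / Real.log n ≤ 2 * z := by
    rcases Nat.lt_or_ge n 2 with hn | hn
    · have : Real.log (n : ℝ) = 0 := by
        interval_cases n
        · simp
        · simp
      rw [this, div_zero]
      exact ⟨le_rfl, by linarith⟩
    · have h3 : Real.log 2 ≤ Real.log n := Real.log_le_log (by norm_num) (by exact_mod_cast hn)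
      have h4 : 0 < Real.log (n : ℝ) := by linarith
      refine ⟨by positivity, ?_⟩
      rw [div_le_iff₀ h4]
      nlinarith
  unfold dz
  split_ifs
  · rw [abs_le]
    constructor <;> linarith [h2.1, h2.2]
  · rw [abs_le]
    constructor <;> linarith [h2.1, h2.2]

/-- the partial sums of `Λ - λ_z` -/
theorem sup_part (U C' : ℕ) : ∃ A0 : ℕ, ∀ A : ℕ, ∀ᶠ X : ℕ in atTop, ∀ z : ℕ, Real.log X ^ A0 ≤ z → (z : ℝ) ≤ Real.log X ^ A →
    ∀ y : ℕ, (y : ℝ) ≤ X * Real.log X ^ C' → ∀ α : ℝ,
    ‖∑ n ∈ Icc 1 y, ((ArithmeticFunction.vonMangoldt n - lamz z n : ℝ) : ℂ) * ee ((n : ℝ) * α)‖ ≤ X / Real.log X ^ U := by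
  obtain ⟨U1, hU1⟩ : ∃ U1, U1 = U + C' + 1 := ⟨_, rfl⟩
  obtain ⟨B, hB⟩ := sup_diff U1
  refine ⟨B + 1, ?_⟩
  intro A
  obtain ⟨N0, hN0⟩ := hB (A + 1)
  obtain ⟨m1, hm1⟩ := Pool.Agent.H373R2.T7.ev_log' (A + U + 1) 2
  filter_upwards [ev_log_ge (2 ^ U1), ev_log_ge (2 ^ B), ev_log_ge (2 ^ (A + 1)), ev_log_ge 2, ev_loglog C' 1 (by norm_num),
    eventually_ge_atTop (max m1 ((N0 + 2) * (N0 + 2)))] with X hLU hLB hLA hL2 hll hXm z hz1 hz2 y hy α
  have hXm1 : m1 ≤ X := (le_max_left _ _).trans hXm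
  have hXN : (N0 + 2) * (N0 + 2) ≤ X := (le_max_right _ _).trans hXm
  have hsq := hm1 X hXm1
  obtain ⟨L, hL⟩ : ∃ L, L = Real.log (X : ℝ) := ⟨_, rfl⟩
  rw [← hL] at hLU hLB hLA hL2 hll hz1 hz2 hy hsq ⊢
  have hL0 : 0 < L := by linarith
  have hL1 : 1 ≤ L := by linarith
  have hLp : ∀ j : ℕ, 0 < L ^ j := fun j => by positivity
  have hX0 : (0 : ℝ) < X := by
    have : 1 ≤ X := by nlinarith
    exact_mod_cast this
  have hX1 : (1 : ℝ) ≤ X := by
    have : 1 ≤ X := by nlinarith
    exact_mod_cast this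
  have hzn : 1 ≤ z := by
    have : (1 : ℝ) ≤ z := (one_le_pow₀ hL1).trans hz1
    exact_mod_cast this
  rcases lt_or_ge (y * y) X with h | h
  · have hyX : (y : ℝ) ≤ √X := by
      apply Real.le_sqrt_of_sq_le
      rw [pow_two]
      exact_mod_cast h.le
    have hterm : ∀ n ∈ Icc 1 y, ‖((ArithmeticFunction.vonMangoldt n - lamz z n : ℝ) : ℂ) * ee ((n : ℝ) * α)‖ ≤ 2 * L ^ (A + 1) := by
      intro n hn
      rw [mem_Icc] at hn
      rw [norm_mul, norm_ee, mul_one, Complex.norm_real, Real.norm_eq_abs]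
      have h1 : 0 ≤ ArithmeticFunction.vonMangoldt n := ArithmeticFunction.vonMangoldt_nonneg
      have h2 : ArithmeticFunction.vonMangoldt n ≤ Real.log n := ArithmeticFunction.vonMangoldt_le_log
      have h3 : Real.log n ≤ L := by
        rw [hL]
        apply Real.log_le_log (by exact_mod_cast hn.1)
        have h4 : n ≤ X := hn.2.trans ((Nat.le_mul_self y).trans h.le)
        exact_mod_cast h4
      have h4 := lamz_nonneg z n
      have h5 := lamz_le z hzn n
      have h6 : L ≤ L ^ (A + 1) := by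
        calc L = L ^ 1 := (pow_one _).symm
          _ ≤ L ^ (A + 1) := pow_le_pow_right₀ hL1 (by omega)
      have h7 : L ^ A ≤ L ^ (A + 1) := pow_le_pow_right₀ hL1 (by omega)
      rw [abs_le]
      constructor <;> linarith
    refine (norm_sum_le _ _).trans ((Finset.sum_le_sum hterm).trans ?_)
    rw [Finset.sum_const, Nat.card_Icc, Nat.add_sub_cancel, nsmul_eq_mul, le_div_iff₀ (hLp _)]
    have e : (y : ℝ) * (2 * L ^ (A + 1)) * L ^ U = y * (2 * L ^ (A + U + 1)) := by ring
    rw [e]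
    calc (y : ℝ) * (2 * L ^ (A + U + 1)) ≤ √X * √X := mul_le_mul hyX hsq (by positivity) (Real.sqrt_nonneg _)
      _ = X := Real.mul_self_sqrt hX0.le
  · have hy0 : N0 + 2 ≤ y := by
      by_contra hcon
      push Not at hcon
      have : y * y < (N0 + 2) * (N0 + 2) := Nat.mul_self_lt_mul_self hcon
      omega
    have hyr : (1 : ℝ) ≤ y := by exact_mod_cast (by omega : 1 ≤ y)
    have hyp : (0 : ℝ) < y := by linarith
    have hlog : L ≤ 2 * Real.log y := by
      have : Real.log ((y : ℝ) ^ 2) = 2 * Real.log y := by rw [Real.log_pow]; norm_num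
      rw [← this, hL]
      apply Real.log_le_log hX0
      rw [pow_two]
      exact_mod_cast h
    have hly : 0 < Real.log (y : ℝ) := by linarith
    have hlog2 : Real.log y ≤ 2 * L := by
      have h1 := Real.log_le_log hyp hy
      rw [Real.log_mul hX0.ne' (hLp C').ne', Real.log_pow, ← hL] at h1
      linarith
    have h3 := hN0 y (by omega) z (by
      calc Real.log y ^ B ≤ (2 * L) ^ B := pow_le_pow_left₀ hly.le hlog2 B
        _ = 2 ^ B * L ^ B := mul_pow _ _ _
        _ ≤ L * L ^ B := mul_le_mul_of_nonneg_right hLB (hLp _).le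
        _ = L ^ (B + 1) := by ring
        _ ≤ z := hz1) (by
      calc (z : ℝ) ≤ L ^ A := hz2
        _ ≤ L ^ A * (L / 2 ^ (A + 1)) := by
            apply le_mul_of_one_le_right (hLp _).le
            rw [le_div_iff₀ (by positivity), one_mul]
            exact hLA
        _ = (L / 2) ^ (A + 1) := by rw [div_pow]; ring
        _ ≤ Real.log y ^ (A + 1) := pow_le_pow_left₀ (by positivity) (by linarith) _) α
    refine h3.trans ?_
    calc (y : ℝ) / Real.log y ^ U1 ≤ (X * L ^ C') / (L / 2) ^ U1 := by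
          apply div_le_div₀ (by positivity) hy (by positivity)
          exact pow_le_pow_left₀ (by positivity) (by linarith) _
      _ = (2 ^ U1 / L) * (X / L ^ U) := by
          have e : L ^ U1 = L ^ U * L ^ C' * L := by rw [hU1]; ring
          rw [div_pow, e]
          field_simp
      _ ≤ 1 * (X / L ^ U) := by
          apply mul_le_mul_of_nonneg_right _ (by positivity)
          rw [div_le_one hL0]
          exact hLU
      _ = X / L ^ U := one_mul _

/-- **The exponential sums of the primes minus the model.** -/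
theorem sup_dz (U C' : ℕ) : ∃ A0 : ℕ, ∀ A : ℕ, ∀ᶠ X : ℕ in atTop, ∀ z : ℕ, Real.log X ^ A0 ≤ z → (z : ℝ) ≤ Real.log X ^ A →
    ∀ y : ℕ, (y : ℝ) ≤ X * Real.log X ^ C' → ∀ α : ℝ,
    ‖∑ n ∈ Icc 1 y, ((dz z n : ℝ) : ℂ) * ee ((n : ℝ) * α)‖ ≤ X / Real.log X ^ U := by
  obtain ⟨A0, hA0⟩ := sup_part (U + 2) C'
  refine ⟨A0, ?_⟩
  intro A
  obtain ⟨m1, hm1⟩ := Pool.Agent.H373R2.T7.ev_log' (2 * U + 4 + C' + 4) 16
  filter_upwards [hA0 A, ev_log_ge 16, ev_loglog C' 1 (by norm_num), ev_pow_log (A + U + 3),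
    eventually_ge_atTop (max m1 2)] with X hpart hL16 hll hP hXm z hz1 hz2 y hy α
  have hXm1 : m1 ≤ X := (le_max_left _ _).trans hXm
  have hsq := hm1 X hXm1
  have hpart := hpart z hz1 hz2
  obtain ⟨L, hL⟩ : ∃ L, L = Real.log (X : ℝ) := ⟨_, rfl⟩
  rw [← hL] at hpart hL16 hll hP hz1 hz2 hy hsq ⊢
  have hL0 : 0 < L := by linarith
  have hL1 : 1 ≤ L := by linarith
  have hLp : ∀ j : ℕ, 0 < L ^ j := fun j => by positivity
  have hX0 : (0 : ℝ) < X := lt_of_lt_of_le (hLp _) hP
  have hzn : 1 ≤ z := by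
    have : (1 : ℝ) ≤ z := (one_le_pow₀ hL1).trans hz1
    exact_mod_cast this
  have hl2 : (1 / 2 : ℝ) < Real.log 2 := by
    have := Real.log_two_gt_d9
    linarith
  obtain ⟨c, hc⟩ : ∃ c : ℕ → ℂ, c = fun n : ℕ => ((Real.log (n : ℝ) * dz z n : ℝ) : ℂ) * ee ((n : ℝ) * α) := ⟨_, rfl⟩
  obtain ⟨M0, hM0⟩ : ∃ M0 : ℝ, M0 = 3 * (X / L ^ (U + 2)) := ⟨_, rfl⟩
  -- the partial sums of `c`
  have hcsum : ∀ y' ≤ y, ‖∑ n ∈ Icc 1 y', c n‖ ≤ M0 := by
    intro y' hy'
    have hy'r : (y' : ℝ) ≤ X * L ^ C' := le_trans (by exact_mod_cast hy') hy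
    have h1 := hpart y' hy'r α
    have hsplit : ∀ n ∈ Icc 1 y', c n = ((ArithmeticFunction.vonMangoldt n - lamz z n : ℝ) : ℂ) * ee ((n : ℝ) * α) -
        (((if n.Prime then 0 else ArithmeticFunction.vonMangoldt n) : ℝ) : ℂ) * ee ((n : ℝ) * α) +
        (((if n = 1 then lamz z 1 else 0) : ℝ) : ℂ) * ee ((n : ℝ) * α) := by
      intro n hn
      rw [mem_Icc] at hn
      rw [hc]
      simp only
      rw [← sub_mul, ← add_mul]
      congr 1
      rw [← Complex.ofReal_sub, ← Complex.ofReal_add]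
      congr 1
      unfold dz
      rcases Nat.lt_or_ge n 2 with h2 | h2
      · have : n = 1 := by omega
        subst this
        simp
      · have hn1 : n ≠ 1 := by omega
        have hl : Real.log (n : ℝ) ≠ 0 := by
          have : 0 < Real.log (n : ℝ) := Real.log_pos (by exact_mod_cast (by omega : 1 < n))
          exact this.ne'
        rw [if_neg hn1]
        by_cases hp : n.Prime
        · rw [if_pos hp, if_pos hp, ArithmeticFunction.vonMangoldt_apply_prime hp]
          field_simp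
          ring
        · rw [if_neg hp, if_neg hp]
          field_simp
          ring
    rw [Finset.sum_congr rfl hsplit, Finset.sum_add_distrib, Finset.sum_sub_distrib]
    have h2 : ‖∑ n ∈ Icc 1 y', (((if n.Prime then 0 else ArithmeticFunction.vonMangoldt n) : ℝ) : ℂ) * ee ((n : ℝ) * α)‖ ≤
        X / L ^ (U + 2) := by
      have h3 : ‖∑ n ∈ Icc 1 y', (((if n.Prime then 0 else ArithmeticFunction.vonMangoldt n) : ℝ) : ℂ) * ee ((n : ℝ) * α)‖ ≤
          Chebyshev.psi y' - Chebyshev.theta y' := by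
        rw [Chebyshev.psi_sub_theta_eq_sum_not_prime, Nat.floor_natCast, Finset.sum_filter]
        have e : Ioc 0 y' = Icc 1 y' := rfl
        rw [e]
        refine (norm_sum_le _ _).trans (Finset.sum_le_sum ?_)
        intro n _
        rw [norm_mul, norm_ee, mul_one, Complex.norm_real, Real.norm_eq_abs]
        split_ifs with hp
        · simp
        · rw [abs_of_nonneg ArithmeticFunction.vonMangoldt_nonneg]
      refine h3.trans ?_
      rcases Nat.eq_zero_or_pos y' with h0 | h0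
      · rw [h0]
        simp
        positivity
      have hy1 : (1 : ℝ) ≤ y' := by exact_mod_cast h0
      have h4 := Chebyshev.psi_sub_theta_le hy1
      refine h4.trans ?_
      have h5 : √(y' : ℝ) ≤ √X * L ^ C' := by
        rw [Real.sqrt_le_left (by positivity), mul_pow, Real.sq_sqrt hX0.le]
        refine hy'r.trans ?_
        apply mul_le_mul_of_nonneg_left _ hX0.le
        rw [← pow_mul]
        exact pow_le_pow_right₀ hL1 (by omega)
      have h6 : Real.log y' ≤ 2 * L := by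
        have h1 := Real.log_le_log (by linarith) hy'r
        rw [Real.log_mul hX0.ne' (hLp C').ne', Real.log_pow, ← hL] at h1
        linarith
      have h7 : 0 ≤ Real.log (y' : ℝ) := Real.log_nonneg hy1
      rw [le_div_iff₀ (hLp _)]
      calc 2 * √(y' : ℝ) * Real.log y' * L ^ (U + 2) ≤ 2 * (√X * L ^ C') * (2 * L) * L ^ (U + 2) := by gcongr
        _ = √X * (4 * L ^ (C' + U + 3)) := by ring
        _ ≤ √X * (16 * L ^ (2 * U + 4 + C' + 4)) := by
            apply mul_le_mul_of_nonneg_left _ (Real.sqrt_nonneg _)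
            have : L ^ (C' + U + 3) ≤ L ^ (2 * U + 4 + C' + 4) := pow_le_pow_right₀ hL1 (by omega)
            have := hLp (C' + U + 3)
            linarith
        _ ≤ √X * √X := mul_le_mul_of_nonneg_left hsq (Real.sqrt_nonneg _)
        _ = X := Real.mul_self_sqrt hX0.le
    have h3 : ‖∑ n ∈ Icc 1 y', (((if n = 1 then lamz z 1 else 0) : ℝ) : ℂ) * ee ((n : ℝ) * α)‖ ≤ X / L ^ (U + 2) := by
      have h4 : ‖∑ n ∈ Icc 1 y', (((if n = 1 then lamz z 1 else 0) : ℝ) : ℂ) * ee ((n : ℝ) * α)‖ ≤ lamz z 1 := by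
        refine (norm_sum_le _ _).trans ?_
        calc ∑ n ∈ Icc 1 y', ‖(((if n = 1 then lamz z 1 else 0) : ℝ) : ℂ) * ee ((n : ℝ) * α)‖ =
            ∑ n ∈ Icc 1 y', (if n = 1 then lamz z 1 else 0) := by
              apply Finset.sum_congr rfl
              intro n _
              rw [norm_mul, norm_ee, mul_one, Complex.norm_real, Real.norm_eq_abs]
              split_ifs
              · exact abs_of_nonneg (lamz_nonneg _ _)
              · simp
          _ ≤ lamz z 1 := by
              rw [Finset.sum_ite_eq' (Icc 1 y') 1 (fun _ => lamz z 1)]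
              split_ifs
              · exact le_rfl
              · exact lamz_nonneg _ _
      refine h4.trans ((lamz_le z hzn 1).trans (hz2.trans ?_))
      rw [le_div_iff₀ (hLp _), ← pow_add]
      exact (pow_le_pow_right₀ hL1 (by omega)).trans hP
    have h4 : X / L ^ (U + 2) + X / L ^ (U + 2) + X / L ^ (U + 2) = M0 := by rw [hM0]; ring
    rw [← h4]
    refine (norm_add_le _ _).trans (add_le_add ((norm_sub_le _ _).trans (add_le_add h1 h2)) h3)
  rcases Nat.eq_zero_or_pos y with h0 | h0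
  · rw [h0]
    simp
    positivity
  obtain ⟨v, hv⟩ : ∃ v : ℕ → ℝ, v = fun n : ℕ => if n ≤ 1 then 0 else 1 / Real.log 2 - 1 / Real.log n := ⟨_, rfl⟩
  have hv2 : ∀ n : ℕ, 2 ≤ n → 0 ≤ 1 / Real.log 2 - 1 / Real.log n := by
    intro n hn
    have h3 : Real.log 2 ≤ Real.log n := Real.log_le_log (by norm_num) (by exact_mod_cast hn)
    have := one_div_le_one_div_of_le (by linarith : (0 : ℝ) < Real.log 2) h3
    linarith
  have hab := abel_mono c v y h0 (by
    intro m hm
    rw [mem_Ico] at hm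
    rw [hv]
    simp only
    rcases Nat.lt_or_ge m 2 with h1 | h1
    · have : m = 1 := by omega
      subst this
      rw [if_pos (by omega), if_neg (by omega)]
      exact hv2 _ (by omega)
    · rw [if_neg (by omega), if_neg (by omega)]
      have h3 : Real.log m ≤ Real.log (m + 1 : ℕ) := Real.log_le_log (by exact_mod_cast (by omega : 0 < m)) (by push_cast; linarith)
      have h4 : 0 < Real.log (m : ℝ) := Real.log_pos (by exact_mod_cast (by omega : 1 < m))
      have := one_div_le_one_div_of_le h4 h3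
      linarith) (by rw [hv]; simp) M0 hcsum
  have hM00 : 0 ≤ M0 := by rw [hM0]; positivity
  have hvy : 0 ≤ v y ∧ v y ≤ 2 := by
    rw [hv]
    simp only
    split_ifs with h1
    · exact ⟨le_rfl, by norm_num⟩
    · refine ⟨hv2 y (by omega), ?_⟩
      have h4 : 0 < Real.log (y : ℝ) := Real.log_pos (by exact_mod_cast (by omega : 1 < y))
      have h5 : 1 / Real.log 2 ≤ 2 := by
        rw [div_le_iff₀ (by linarith)]
        linarith
      have h6 : 0 < 1 / Real.log (y : ℝ) := by positivity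
      linarith
  have hid : ∑ n ∈ Icc 1 y, ((dz z n : ℝ) : ℂ) * ee ((n : ℝ) * α) =
      ((1 / Real.log 2 : ℝ) : ℂ) * ∑ n ∈ Icc 1 y, c n - ∑ n ∈ Icc 1 y, c n * ((v n : ℝ) : ℂ) := by
    rw [Finset.mul_sum, ← Finset.sum_sub_distrib]
    apply Finset.sum_congr rfl
    intro n hn
    rw [mem_Icc] at hn
    rw [hc, hv]
    simp only
    rcases Nat.lt_or_ge n 2 with h2 | h2
    · have : n = 1 := by omega
      subst this
      have e : dz z 1 = 0 := by
        unfold dz
        rw [if_neg Nat.not_prime_one, Nat.cast_one, Real.log_one, div_zero, sub_zero]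
      rw [e]
      simp
    · rw [if_neg (by omega)]
      have hl : 0 < Real.log (n : ℝ) := Real.log_pos (by exact_mod_cast (by omega : 1 < n))
      have hr : dz z n = 1 / Real.log 2 * (Real.log (n : ℝ) * dz z n) -
          (Real.log (n : ℝ) * dz z n) * (1 / Real.log 2 - 1 / Real.log (n : ℝ)) := by
        have h20 : Real.log 2 ≠ 0 := by linarith
        field_simp
        ring
      have hrc : ((dz z n : ℝ) : ℂ) = ((1 / Real.log 2 : ℝ) : ℂ) * ((Real.log (n : ℝ) * dz z n : ℝ) : ℂ) -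
          ((Real.log (n : ℝ) * dz z n : ℝ) : ℂ) * ((1 / Real.log 2 - 1 / Real.log (n : ℝ) : ℝ) : ℂ) := by
        rw [← Complex.ofReal_mul, ← Complex.ofReal_mul, ← Complex.ofReal_sub, ← hr]
      rw [hrc]
      ring
  rw [hid]
  refine (norm_sub_le _ _).trans ?_
  have h1 : ‖((1 / Real.log 2 : ℝ) : ℂ) * ∑ n ∈ Icc 1 y, c n‖ ≤ 2 * M0 := by
    rw [norm_mul, Complex.norm_real, Real.norm_eq_abs, abs_of_pos (by positivity)]
    apply mul_le_mul _ (hcsum y le_rfl) (norm_nonneg _) (by norm_num)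
    rw [div_le_iff₀ (by linarith)]
    linarith
  have h2 : ‖∑ n ∈ Icc 1 y, c n * ((v n : ℝ) : ℂ)‖ ≤ 4 * M0 := by
    refine hab.trans ?_
    nlinarith [hvy.1, hvy.2]
  calc ‖((1 / Real.log 2 : ℝ) : ℂ) * ∑ n ∈ Icc 1 y, c n‖ + ‖∑ n ∈ Icc 1 y, c n * ((v n : ℝ) : ℂ)‖ ≤ 2 * M0 + 4 * M0 := add_le_add h1 h2
    _ = 18 / L ^ 2 * (X / L ^ U) := by
        rw [hM0, pow_add]
        field_simp
        ring
    _ ≤ 1 * (X / L ^ U) := by
        apply mul_le_mul_of_nonneg_right _ (by positivity)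
        rw [div_le_one (hLp 2)]
        nlinarith
    _ = X / L ^ U := one_mul _

end Pool.Agent.Q236.GB
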